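import Pool.Agent.N848.OL.Stm

/-! OL/SGM (helper359 for helper848): Galois invariance of `UnP` -/

set_option autoImplicit false

namespace Pool.Agent.N359.OL

open NumberField IsDedekindDomain Module Pool.Agent.N848.OL
open Pool.Agent.N848.LT (Ab)

/-- every prime of `K'` lies above a prime of `K` -/
theorem exists_below {K K' : Type} [Field K] [NumberField K] [Field K'] [NumberField K']
    [Algebra K K'] (w : HeightOneSpectrum (𝓞 K')) : ∃ v : HeightOneSpectrum (𝓞 K), Ab w v := by
  have := w.isPrime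
  have hint : Algebra.IsIntegral (𝓞 K) (𝓞 K') := inferInstance
  refine ⟨⟨w.asIdeal.comap (algebraMap (𝓞 K) (𝓞 K')), Ideal.IsPrime.comap _, ?_⟩, rfl⟩
  exact Ideal.IsIntegral.comap_ne_bot (𝓞 K) w.ne_bot

theorem t_SGM (hAPP : S_APP) (hCNJ : S_CNJ) : S_SGM := by
  intro p _ hp K K' _ _ _ _ _ f hf hU σ w
  obtain ⟨v, hv⟩ := exists_below (K := K) w
  obtain ⟨y, hy⟩ := hAPP p K K' v f 2 (fun w' _ => hU w')
  have hy0 : ∀ w' : HeightOneSpectrum (𝓞 K'), Ab w' v → w'.valuation K' (f * y ^ p) = 1 :=
    fun w' h => (hy w' h).1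
  have hc : algebraMap K K' ((p : K) ^ 2) = (p : K') ^ 2 := by simp
  refine ⟨σ y, ?_, ?_⟩
  · apply le_antisymm
    · have := hCNJ K K' v 1 (f * y ^ p) (fun w' h => by
        rw [hy0 w' h]; simp) σ w hv
      simpa using this
    · have hne : f * y ^ p ≠ 0 := by
        intro h0
        have := hy0 w hv
        rw [h0] at this
        simp at this
      have := hCNJ K K' v 1 (f * y ^ p)⁻¹ (fun w' h => by
        rw [map_inv₀, hy0 w' h]; simp) σ w hv
      have h2 : (w.valuation K' (σ f * σ y ^ p))⁻¹ ≤ 1 := by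
        simpa [map_inv₀] using this
      have h3 : w.valuation K' (σ f * σ y ^ p) ≠ 0 := by
        rw [Valuation.ne_zero_iff]
        intro h0
        apply hne
        apply σ.injective
        rw [map_mul, map_pow, h0, map_zero]
      exact (inv_le_one₀ (zero_lt_iff.mpr h3)).mp h2
  · have := hCNJ K K' v ((p : K) ^ 2) (f * y ^ p - 1) (fun w' h => by
      rw [hc]; exact (hy w' h).2) σ w hv
    rw [hc] at this
    simpa using this

end Pool.Agent.N359.OL
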